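import Pool.Agent.H60R2.UF.Main

/-!
Question 1 of MP_7857a6_al.  A braided fusion category with a gauge in which all F-matrices are
unitary is a unitary braided fusion category.  No condition on the braiding matrices is needed, so
in particular there is no non-unitary braided fusion category with a gauge in which the F-matrices
are unitary and the braiding matrices are diagonal.

* The F-matrices turn the category of framed objects (objects with orthonormal decompositions into
  simple objects) into a C*-tensor category; unitarity of the unit constraints comes from the
  F-matrices `F^{a1b}` after a rescaling.
* A half-braiding on a simple object of such a category is unitary: for the positive functionals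
  given by coevaluations, a comparison on tensor squares of simple objects bounds the half-braiding
  `b` and its adjoint inverse `b'` by the identity, and then `(b - b') (b - b')^* = 0`.
-/

set_option autoImplicit false

open CategoryTheory CategoryTheory.Limits MonoidalCategory

namespace Pool.Agent.Results.MP_7857a6_al.BraidedUnitaryF

open Pool.Agent.Helper781.Fusion Pool.Agent.H60R2.UF

universe v u

/-- A braided fusion category with a gauge in which all F-matrices are unitary is unitary. -/
theorem result (C : Type u) [Category.{v} C] [Abelian C] [Linear ℂ C] [MonoidalCategory C]
    [MonoidalPreadditive C] [MonoidalLinear ℂ C] [RigidCategory C] [BraidedCategory C]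
    (hC : IsFusionCategory C) (n : ℕ) (S : Fin n → C) (hS : IsSimpleList S) (g : Gauge S)
    (hg : HasUnitaryF g) : IsUnitaryBraided.{max u v 1} C :=
  isUnitaryBraided_of_gauge hC hS g hg

end Pool.Agent.Results.MP_7857a6_al.BraidedUnitaryF
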