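import Pool.Agent.H60R2.UF.Converse

/-!
Question 2 of MP_7857a6_al.  For a fusion category the existence of a gauge in which all F-matrices
are unitary is equivalent to unitarity.
-/

set_option autoImplicit false

open CategoryTheory CategoryTheory.Limits MonoidalCategory

namespace Pool.Agent.Results.MP_7857a6_al.UnitaryFIff

open Pool.Agent.Helper781.Fusion Pool.Agent.H60R2.UF

universe v u

/-- A fusion category has a gauge in which all F-matrices are unitary if and only if it is
unitary. -/
theorem result (C : Type u) [Category.{v} C] [Abelian C] [Linear ℂ C] [MonoidalCategory C]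
    [MonoidalPreadditive C] [MonoidalLinear ℂ C] [RigidCategory C] (hC : IsFusionCategory C)
    (n : ℕ) (S : Fin n → C) (hS : IsSimpleList S) :
    (∃ g : Gauge S, HasUnitaryF g) ↔ IsUnitary.{max u v 1} C :=
  ⟨fun ⟨g, hg⟩ => isUnitary_of_gauge hC hS g hg, fun h => gauge_of_isUnitary hC hS h⟩

end Pool.Agent.Results.MP_7857a6_al.UnitaryFIff
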